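import Pool.Agent.N536.ND.Step

namespace Pool.Agent.N536.ND

open Real MeasureTheory
open scoped ContDiff RealInnerProductSpace

/-- A nondegenerate closed curve in `ℝ³`: `(2 cos t + cos 2t, 2 sin t - sin 2t, sin 3t)`. -/
noncomputable def delt (t : ℝ) : EuclideanSpace ℝ (Fin 3) :=
  WithLp.toLp 2 ![2 * cos t + cos (2 * t), 2 * sin t - sin (2 * t), sin (3 * t)]

theorem hasDerivAt_toLp3 {a b c a' b' c' : ℝ → ℝ} (t : ℝ) (ha : HasDerivAt a (a' t) t)
    (hb : HasDerivAt b (b' t) t) (hc : HasDerivAt c (c' t) t) :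
    HasDerivAt (fun t => (WithLp.toLp 2 ![a t, b t, c t] : EuclideanSpace ℝ (Fin 3)))
      (WithLp.toLp 2 ![a' t, b' t, c' t]) t := by
  have h : HasDerivAt (fun t => (![a t, b t, c t] : Fin 3 → ℝ)) ![a' t, b' t, c' t] t := by
    rw [hasDerivAt_pi]
    intro i
    fin_cases i
    · simpa using ha
    · simpa using hb
    · simpa using hc
  exact (EuclideanSpace.equiv (Fin 3) ℝ).symm.toContinuousLinearMap.hasFDerivAt.comp_hasDerivAt t h

theorem delt_deriv1 : iteratedDeriv 1 delt = fun t => WithLp.toLp 2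
    ![-2 * sin t - 2 * sin (2 * t), 2 * cos t - 2 * cos (2 * t), 3 * cos (3 * t)] := by
  rw [iteratedDeriv_one]
  funext t
  refine (hasDerivAt_toLp3 (a' := fun t => -2 * sin t - 2 * sin (2 * t))
    (b' := fun t => 2 * cos t - 2 * cos (2 * t)) (c' := fun t => 3 * cos (3 * t)) t ?_ ?_ ?_).deriv
  · have := ((hasDerivAt_cos t).const_mul 2).fun_add
      ((hasDerivAt_cos (2 * t)).comp t ((hasDerivAt_id t).const_mul 2))
    convert! this using 1
    simp; ring
  · have := ((hasDerivAt_sin t).const_mul 2).fun_sub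
      ((hasDerivAt_sin (2 * t)).comp t ((hasDerivAt_id t).const_mul 2))
    convert! this using 1
    simp; ring
  · have := ((hasDerivAt_sin (3 * t)).comp t ((hasDerivAt_id t).const_mul 3))
    convert! this using 1
    simp; ring

theorem delt_deriv2 : iteratedDeriv 2 delt = fun t => WithLp.toLp 2
    ![-2 * cos t - 4 * cos (2 * t), -2 * sin t + 4 * sin (2 * t), -9 * sin (3 * t)] := by
  rw [iteratedDeriv_succ, delt_deriv1]
  funext t
  refine (hasDerivAt_toLp3 (a' := fun t => -2 * cos t - 4 * cos (2 * t))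
    (b' := fun t => -2 * sin t + 4 * sin (2 * t)) (c' := fun t => -9 * sin (3 * t)) t ?_ ?_ ?_).deriv
  · have := ((hasDerivAt_sin t).const_mul (-2)).fun_sub
      (((hasDerivAt_sin (2 * t)).comp t ((hasDerivAt_id t).const_mul 2)).const_mul 2)
    convert! this using 1
    simp; ring
  · have := ((hasDerivAt_cos t).const_mul 2).fun_sub
      (((hasDerivAt_cos (2 * t)).comp t ((hasDerivAt_id t).const_mul 2)).const_mul 2)
    convert! this using 1
    simp; ring
  · have := (((hasDerivAt_cos (3 * t)).comp t ((hasDerivAt_id t).const_mul 3)).const_mul 3)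
    convert! this using 1
    simp; ring

theorem delt_deriv3 : iteratedDeriv 3 delt = fun t => WithLp.toLp 2
    ![2 * sin t + 8 * sin (2 * t), -2 * cos t + 8 * cos (2 * t), -27 * cos (3 * t)] := by
  rw [iteratedDeriv_succ, delt_deriv2]
  funext t
  refine (hasDerivAt_toLp3 (a' := fun t => 2 * sin t + 8 * sin (2 * t))
    (b' := fun t => -2 * cos t + 8 * cos (2 * t)) (c' := fun t => -27 * cos (3 * t)) t ?_ ?_ ?_).deriv
  · have := ((hasDerivAt_cos t).const_mul (-2)).fun_sub
      (((hasDerivAt_cos (2 * t)).comp t ((hasDerivAt_id t).const_mul 2)).const_mul 4)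
    convert! this using 1
    simp; ring
  · have := ((hasDerivAt_sin t).const_mul (-2)).fun_add
      (((hasDerivAt_sin (2 * t)).comp t ((hasDerivAt_id t).const_mul 2)).const_mul 4)
    convert! this using 1
    simp; ring
  · have := (((hasDerivAt_sin (3 * t)).comp t ((hasDerivAt_id t).const_mul 3)).const_mul (-9))
    convert! this using 1
    simp; ring

theorem delt_closed : IsSmoothClosed delt := by
  constructor
  · rw [contDiff_euclidean]
    intro i
    fin_cases i
    · show ContDiff ℝ ∞ (fun t => 2 * cos t + cos (2 * t)); fun_prop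
    · show ContDiff ℝ ∞ (fun t => 2 * sin t - sin (2 * t)); fun_prop
    · show ContDiff ℝ ∞ (fun t => sin (3 * t)); fun_prop
  · intro t
    unfold delt
    have h1 : cos (2 * (t + 2 * π)) = cos (2 * t) := by
      rw [show 2 * (t + 2 * π) = 2 * t + 2 * π + 2 * π by ring, cos_add_two_pi, cos_add_two_pi]
    have h2 : sin (2 * (t + 2 * π)) = sin (2 * t) := by
      rw [show 2 * (t + 2 * π) = 2 * t + 2 * π + 2 * π by ring, sin_add_two_pi, sin_add_two_pi]
    have h3 : sin (3 * (t + 2 * π)) = sin (3 * t) := by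
      rw [show 3 * (t + 2 * π) = 3 * t + 2 * π + 2 * π + 2 * π by ring, sin_add_two_pi,
        sin_add_two_pi, sin_add_two_pi]
    rw [h1, h2, h3, cos_add_two_pi, sin_add_two_pi]

theorem delt_nondegenerate : Nondegenerate delt := by
  intro t
  refine LinearIndependent.of_comp (WithLp.linearEquiv 2 ℝ (Fin 3 → ℝ)).toLinearMap ?_
  set M : Matrix (Fin 3) (Fin 3) ℝ :=
    !![-2 * sin t - 2 * sin (2 * t), 2 * cos t - 2 * cos (2 * t), 3 * cos (3 * t);
       -2 * cos t - 4 * cos (2 * t), -2 * sin t + 4 * sin (2 * t), -9 * sin (3 * t);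
       2 * sin t + 8 * sin (2 * t), -2 * cos t + 8 * cos (2 * t), -27 * cos (3 * t)] with hM
  have hrow : ((WithLp.linearEquiv 2 ℝ (Fin 3 → ℝ)).toLinearMap ∘
      fun i : Fin 3 => iteratedDeriv (i.val + 1) delt t) = fun i => M i := by
    funext i
    fin_cases i
    · show (WithLp.linearEquiv 2 ℝ (Fin 3 → ℝ)) (iteratedDeriv 1 delt t) = M 0
      rw [delt_deriv1]; rfl
    · show (WithLp.linearEquiv 2 ℝ (Fin 3 → ℝ)) (iteratedDeriv 2 delt t) = M 1
      rw [delt_deriv2]; rfl
    · show (WithLp.linearEquiv 2 ℝ (Fin 3 → ℝ)) (iteratedDeriv 3 delt t) = M 2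
      rw [delt_deriv3]; rfl
  rw [hrow]
  have hdet : M.det = 3 * (-8 * cos (3 * t) ^ 2 + 8 * cos (3 * t) - 36) := by
    rw [hM, Matrix.det_fin_three]
    simp only [Matrix.of_apply, Matrix.cons_val', Matrix.cons_val_zero, Matrix.cons_val_one,
      Matrix.cons_val, Matrix.cons_val_fin_one]
    have h1 := sin_sq_add_cos_sq t
    have h2 := sin_sq_add_cos_sq (2 * t)
    have h3 : cos (3 * t) = cos t * cos (2 * t) - sin t * sin (2 * t) := by
      rw [← cos_add]; congr 1; ring
    have h4 : sin (3 * t) = sin t * cos (2 * t) + cos t * sin (2 * t) := by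
      rw [← sin_add]; congr 1; ring
    have h5 := sin_sq_add_cos_sq (3 * t)
    generalize cos (3 * t) = C at *
    generalize sin (3 * t) = S at *
    generalize cos (2 * t) = c at *
    generalize sin (2 * t) = s at *
    generalize cos t = a at *
    generalize sin t = b at *
    have e1 : (-2 * b - 2 * s) * (-2 * b + 4 * s) - (2 * a - 2 * c) * (-2 * a - 4 * c)
        = -4 + 4 * C := by
      linear_combination 4 * h1 - 8 * h2 - 4 * h3
    have e2 : (-2 * a - 4 * c) * (-2 * a + 8 * c) - (-2 * b + 4 * s) * (2 * b + 8 * s)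
        = -28 - 8 * C := by
      linear_combination 4 * h1 - 32 * h2 + 8 * h3
    have e3 : (-2 * b - 2 * s) * (-2 * a + 8 * c) - (2 * a - 2 * c) * (2 * b + 8 * s)
        = -12 * S := by
      linear_combination 12 * h4
    linear_combination (-27 * C) * e1 + 3 * C * e2 + 9 * S * e3 - 108 * h5
  have hne : M.det ≠ 0 := by
    rw [hdet]
    nlinarith [sq_nonneg (cos (3 * t)), cos_le_one (3 * t), sq_nonneg (cos (3*t) - 1)]
  exact Matrix.linearIndependent_rows_of_det_ne_zero hne

end Pool.Agent.N536.ND
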