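import Mathlib

/-! Smooth closed curves in `ℝ^n`, nondegeneracy, the `m`-fold circle, its perturbations,
and the length of the Frenet frame. -/

namespace Pool.Agent.N536.ND

open Real MeasureTheory
open scoped ContDiff RealInnerProductSpace

/-- A smooth closed curve `S¹ = ℝ/2πℤ → ℝⁿ`. -/
def IsSmoothClosed {n : ℕ} (γ : ℝ → EuclideanSpace ℝ (Fin n)) : Prop :=
  ContDiff ℝ ∞ γ ∧ Function.Periodic γ (2 * π)

/-- Nondegeneracy: `γ', γ'', …, γ⁽ⁿ⁾` are linearly independent at every point. -/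
def Nondegenerate {n : ℕ} (γ : ℝ → EuclideanSpace ℝ (Fin n)) : Prop :=
  ∀ t, LinearIndependent ℝ (fun i : Fin n => iteratedDeriv (i.val + 1) γ t)

/-- The plane unit circle traversed `m` times, `c_m(t) = (cos mt, sin mt, 0, …, 0)`. -/
noncomputable def circ (n m : ℕ) (t : ℝ) : EuclideanSpace ℝ (Fin n) :=
  WithLp.toLp 2 fun i => if i.val = 0 then cos (m * t) else if i.val = 1 then sin (m * t) else 0

/-- Every `C^∞`-neighbourhood of `c_m` contains a nondegenerate closed curve in `ℝⁿ`: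
for every order `k` and every `ε > 0` there is a smooth closed nondegenerate curve all of whose
derivatives of order `≤ k` are uniformly `ε`-close to those of `c_m`. -/
def Perturbable (n m : ℕ) : Prop :=
  ∀ k : ℕ, ∀ ε : ℝ, 0 < ε → ∃ γ : ℝ → EuclideanSpace ℝ (Fin n),
    IsSmoothClosed γ ∧ Nondegenerate γ ∧
      ∀ j ≤ k, ∀ t, ‖iteratedDeriv j γ t - iteratedDeriv j (circ n m) t‖ < ε

/-- `μ(n)`: the least `m ≥ 1` such that every `C^∞`-neighbourhood of `c_m` contains a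
nondegenerate closed curve in `ℝⁿ` (`0` if there is none). -/
noncomputable def mu (n : ℕ) : ℕ := sInf {m : ℕ | 1 ≤ m ∧ Perturbable n m}

/-- The Frenet frame: Gram-Schmidt orthonormalisation of `γ', γ'', …, γ⁽ⁿ⁾`; `frame γ t i` is the
vector `e_{i+1}(t)`. -/
noncomputable def frame {n : ℕ} (γ : ℝ → EuclideanSpace ℝ (Fin n)) (t : ℝ) (i : Fin n) :
    EuclideanSpace ℝ (Fin n) :=
  InnerProductSpace.gramSchmidtNormed ℝ (fun j : Fin n => iteratedDeriv (j.val + 1) γ t) i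

/-- The curvature `κ_{i+1} = ⟨de_{i+1}/ds, e_{i+2}⟩`, for `i = 0, …, n - 2`, where `s` is arc
length, so `d/ds = ‖γ'‖⁻¹ d/dt`. -/
noncomputable def curvature {n : ℕ} (γ : ℝ → EuclideanSpace ℝ (Fin n)) (i : Fin (n - 1))
    (t : ℝ) : ℝ :=
  ⟪deriv (fun s => frame γ s ⟨i.val, by omega⟩) t, frame γ t ⟨i.val + 1, by omega⟩⟫ / ‖deriv γ t‖

/-- The length `∫ (κ_1² + ⋯ + κ_{n-1}²)^{1/2} ds` of the Frenet frame. -/
noncomputable def frameLength {n : ℕ} (γ : ℝ → EuclideanSpace ℝ (Fin n)) : ℝ :=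
  ∫ t in (0 : ℝ)..2 * π, √(∑ i : Fin (n - 1), curvature γ i t ^ 2) * ‖deriv γ t‖

end Pool.Agent.N536.ND
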