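import Mathlib

/-! Fenchel's theorem for closed curves in a real inner product space, in the form
we need: if `T` is a closed `C^1` curve on the unit sphere and `0` is a positively
weighted mean of `T`, then `T` has length at least `2π`. -/

namespace Pool.Agent.N536.ND

open Real MeasureTheory Set intervalIntegral
open scoped RealInnerProductSpace

variable {E : Type*} [NormedAddCommGroup E] [InnerProductSpace ℝ E]

/-- On the unit sphere a unit-length chord turns at most by the length travelled. -/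
theorem cos_length_le_inner {T : ℝ → E} (hT : ContDiff ℝ 1 T) (hu : ∀ t, ‖T t‖ = 1)
    {s b : ℝ} (hsb : s ≤ b) (hlen : (∫ τ in s..b, ‖deriv T τ‖) < π) :
    cos (∫ τ in s..b, ‖deriv T τ‖) ≤ ⟪T s, T b⟫ := by
  have hcd : Continuous (fun t => ‖deriv T t‖) := (hT.continuous_deriv le_rfl).norm
  set σ : ℝ → ℝ := fun t => ∫ τ in s..t, ‖deriv T τ‖ with hσ
  have hσd : ∀ t, HasDerivAt σ (‖deriv T t‖) t := fun t =>
    intervalIntegral.integral_hasDerivAt_right (hcd.intervalIntegrable _ _)
      (hcd.stronglyMeasurableAtFilter _ _) hcd.continuousAt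
  have hσ0 : σ s = 0 := by simp [hσ]
  have hσmono : Monotone σ := by
    refine monotone_of_deriv_nonneg (fun t => (hσd t).differentiableAt) fun t => ?_
    rw [(hσd t).deriv]; exact norm_nonneg _
  have hTd : ∀ t, HasDerivAt T (deriv T t) t := fun t =>
    ((hT.differentiable one_ne_zero) t).hasDerivAt
  -- derivative of the inner product
  have hfd : ∀ t, HasDerivAt (fun t => ⟪T s, T t⟫) (⟪T s, deriv T t⟫) t := fun t => by
    simpa using (hasDerivAt_const t (T s)).inner ℝ (hTd t)
  -- tangency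
  have horth : ∀ t, ⟪T t, deriv T t⟫ = 0 := fun t => by
    have h1 : HasDerivAt (fun t => ⟪T t, T t⟫) (⟪T t, deriv T t⟫ + ⟪deriv T t, T t⟫) t :=
      (hTd t).inner ℝ (hTd t)
    have h2 : (fun t => ⟪T t, T t⟫) = fun _ => (1 : ℝ) := by
      funext t; rw [real_inner_self_eq_norm_sq, hu]; norm_num
    rw [h2] at h1
    have h3 := h1.unique (hasDerivAt_const t (1 : ℝ))
    rw [real_inner_comm (T t) (deriv T t)] at h3
    linarith [real_inner_comm (T t) (deriv T t)]
  -- the gradient bound
  have hgrad : ∀ t, |⟪T s, deriv T t⟫| ≤ √(1 - ⟪T s, T t⟫ ^ 2) * ‖deriv T t‖ := fun t => by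
    have h1 : ⟪T s, deriv T t⟫ = ⟪T s - ⟪T s, T t⟫ • T t, deriv T t⟫ := by
      rw [inner_sub_left, inner_smul_left, horth]; simp
    have h2 : ‖T s - ⟪T s, T t⟫ • T t‖ = √(1 - ⟪T s, T t⟫ ^ 2) := by
      rw [← Real.sqrt_sq (norm_nonneg (T s - ⟪T s, T t⟫ • T t))]
      congr 1
      rw [← real_inner_self_eq_norm_sq, inner_sub_left, inner_sub_right, inner_sub_right,
        inner_smul_left, inner_smul_left, inner_smul_right, inner_smul_right,
        real_inner_self_eq_norm_sq, real_inner_self_eq_norm_sq, hu, hu,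
        real_inner_comm (T s) (T t)]
      simp
      ring
    rw [h1, ← h2]
    exact abs_real_inner_le_norm _ _
  -- the barrier estimate
  have key : ∀ δ : ℝ, 0 < δ → (1 + δ) * σ b + δ * (b - s) + δ < π →
      cos ((1 + δ) * σ b + δ * (b - s) + δ) ≤ ⟪T s, T b⟫ := by
    intro δ hδ hδπ
    set A : ℝ → ℝ := fun t => (1 + δ) * σ t + δ * (t - s) + δ with hA
    have hAd : ∀ t, HasDerivAt A ((1 + δ) * ‖deriv T t‖ + δ) t := fun t => by
      have := (((hσd t).const_mul (1 + δ)).add (((hasDerivAt_id t).sub_const s).const_mul δ)).add_const δ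
      simpa [hA] using this
    have hAmono : Monotone A := by
      refine monotone_of_deriv_nonneg (fun t => (hAd t).differentiableAt) fun t => ?_
      rw [(hAd t).deriv]; positivity
    have hAs : A s = δ := by simp [hA, hσ0]
    have hBd : ∀ t, HasDerivAt (fun t => - cos (A t)) (sin (A t) * ((1 + δ) * ‖deriv T t‖ + δ)) t :=
      fun t => by
        have := ((hAd t).cos).fun_neg
        simpa using this
    have hmain : ∀ ⦃x⦄, x ∈ Icc s b → - ⟪T s, T x⟫ ≤ - cos (A x) := by
      refine image_le_of_deriv_right_lt_deriv_boundary' (f' := fun t => - ⟪T s, deriv T t⟫)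
        (B' := fun t => sin (A t) * ((1 + δ) * ‖deriv T t‖ + δ)) ?_ ?_ ?_ ?_ ?_ ?_
      · exact fun t _ => ((hfd t).neg).continuousAt.continuousWithinAt
      · exact fun t _ => ((hfd t).neg).hasDerivWithinAt
      · have : ⟪T s, T s⟫ = (1 : ℝ) := by rw [real_inner_self_eq_norm_sq, hu]; norm_num
        rw [this]
        linarith [cos_le_one (A s)]
      · exact fun t _ => (hBd t).continuousAt.continuousWithinAt
      · exact fun t _ => (hBd t).hasDerivWithinAt
      · intro t ht heq
        have hA1 : 0 < A t := by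
          have := hAmono ht.1
          rw [hAs] at this; linarith
        have hA2 : A t < π := lt_of_le_of_lt (hAmono ht.2.le) hδπ
        have hsin : 0 < sin (A t) := sin_pos_of_pos_of_lt_pi hA1 hA2
        have hf : ⟪T s, T t⟫ = cos (A t) := by linarith
        have hg := hgrad t
        rw [hf] at hg
        have hsq : √(1 - cos (A t) ^ 2) = sin (A t) := by
          rw [← Real.sin_sq, Real.sqrt_sq hsin.le]
        rw [hsq] at hg
        have h5 : -⟪T s, deriv T t⟫ ≤ sin (A t) * ‖deriv T t‖ := by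
          have := neg_abs_le (⟪T s, deriv T t⟫)
          linarith
        have h6 : sin (A t) * ‖deriv T t‖ < sin (A t) * ((1 + δ) * ‖deriv T t‖ + δ) := by
          apply mul_lt_mul_of_pos_left _ hsin
          have := norm_nonneg (deriv T t)
          nlinarith
        linarith
    have := hmain (right_mem_Icc.2 hsb)
    simpa [hA] using neg_le_neg this
  -- let δ tend to zero
  have hσb : σ b < π := hlen
  have hcont : Continuous fun δ : ℝ => (1 + δ) * σ b + δ * (b - s) + δ := by fun_prop
  have hlim : Filter.Tendsto (fun δ : ℝ => cos ((1 + δ) * σ b + δ * (b - s) + δ))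
      (nhdsWithin 0 (Ioi 0)) (nhds (cos (σ b))) := by
    have h := (Real.continuous_cos.comp hcont).tendsto 0
    simp only [Function.comp] at h
    have h' : cos ((1 + 0) * σ b + 0 * (b - s) + 0) = cos (σ b) := by simp
    rw [h'] at h
    exact h.mono_left nhdsWithin_le_nhds
  refine le_of_tendsto hlim ?_
  have hev : ∀ᶠ δ : ℝ in nhdsWithin 0 (Ioi 0), (1 + δ) * σ b + δ * (b - s) + δ < π := by
    have h := hcont.tendsto 0
    have h' : (1 + (0:ℝ)) * σ b + 0 * (b - s) + 0 = σ b := by simp
    rw [h'] at h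
    exact (h.mono_left nhdsWithin_le_nhds).eventually (gt_mem_nhds hσb)
  filter_upwards [hev, self_mem_nhdsWithin] with δ h1 h2
  exact key δ h2 h1

/-- **Fenchel's theorem**, spherical form. -/
theorem fenchel [CompleteSpace E] {T : ℝ → E} {w : ℝ → ℝ} {L : ℝ} (hL : 0 < L) (hT : ContDiff ℝ 1 T)
    (hu : ∀ t, ‖T t‖ = 1) (hclosed : T L = T 0) (hw : Continuous w) (hwpos : ∀ t, 0 < w t)
    (hint : ∫ t in (0:ℝ)..L, w t • T t = 0) :
    2 * π ≤ ∫ t in (0:ℝ)..L, ‖deriv T t‖ := by
  by_contra hlt
  push Not at hlt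
  have hcd : Continuous (fun t => ‖deriv T t‖) := (hT.continuous_deriv le_rfl).norm
  have hii : ∀ a b, IntervalIntegrable (fun t => ‖deriv T t‖) volume a b :=
    fun a b => hcd.intervalIntegrable a b
  set ℓ := ∫ t in (0:ℝ)..L, ‖deriv T t‖ with hℓ
  have hσc : Continuous fun t => ∫ τ in (0:ℝ)..t, ‖deriv T τ‖ :=
    intervalIntegral.continuous_primitive hii 0
  have hℓ0 : 0 ≤ ℓ := intervalIntegral.integral_nonneg hL.le fun _ _ => norm_nonneg _
  obtain ⟨t1, ht1, hmid⟩ : ∃ t1 ∈ Icc 0 L, (∫ τ in (0:ℝ)..t1, ‖deriv T τ‖) = ℓ / 2 := by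
    have := intermediate_value_Icc hL.le (f := fun t => ∫ τ in (0:ℝ)..t, ‖deriv T τ‖)
      hσc.continuousOn
    have hm : ℓ / 2 ∈ Icc (∫ τ in (0:ℝ)..0, ‖deriv T τ‖) (∫ τ in (0:ℝ)..L, ‖deriv T τ‖) := by
      rw [← hℓ]; simp; constructor <;> linarith
    obtain ⟨t1, h1, h2⟩ := this hm
    exact ⟨t1, h1, h2⟩
  have hcos : ∀ a b : ℝ, 0 ≤ a → 0 ≤ b → a + b < π → 0 < cos a + cos b := by
    intro a b ha hb hab
    have : cos (π - a) < cos b :=
      cos_lt_cos_of_nonneg_of_le_pi hb (by linarith) (by linarith)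
    rw [cos_pi_sub] at this
    linarith
  have hnn : ∀ a b, a ≤ b → 0 ≤ ∫ τ in a..b, ‖deriv T τ‖ := fun a b hab =>
    intervalIntegral.integral_nonneg hab fun _ _ => norm_nonneg _
  have hpos : ∀ t ∈ Icc 0 L, 0 < ⟪T 0 + T t1, T t⟫ := by
    intro t ht
    rw [inner_add_left]
    rcases le_total t t1 with h | h
    · have e : (∫ τ in (0:ℝ)..t, ‖deriv T τ‖) + (∫ τ in t..t1, ‖deriv T τ‖) = ℓ / 2 := by
        rw [intervalIntegral.integral_add_adjacent_intervals (hii _ _) (hii _ _), hmid]
      have n1 := hnn 0 t ht.1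
      have n2 := hnn t t1 h
      have c1 := cos_length_le_inner hT hu ht.1 (by linarith)
      have c2 := cos_length_le_inner hT hu h (by linarith)
      rw [real_inner_comm] at c2
      have := hcos _ _ n1 n2 (by linarith)
      linarith
    · have e : (∫ τ in t1..t, ‖deriv T τ‖) + (∫ τ in t..L, ‖deriv T τ‖) = ℓ / 2 := by
        have e1 := intervalIntegral.integral_add_adjacent_intervals (hii t1 t) (hii t L)
        have e2 := intervalIntegral.integral_add_adjacent_intervals (hii 0 t1) (hii t1 L)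
        rw [e1]; rw [← hℓ, hmid] at e2; linarith
      have n1 := hnn t1 t h
      have n2 := hnn t L ht.2
      have c1 := cos_length_le_inner hT hu h (by linarith)
      have c2 := cos_length_le_inner hT hu ht.2 (by linarith)
      rw [real_inner_comm, hclosed] at c2
      have := hcos _ _ n1 n2 (by linarith)
      linarith
  have hz : ∫ t in (0:ℝ)..L, w t * ⟪T 0 + T t1, T t⟫ = 0 := by
    have h1 : IntervalIntegrable (fun t => w t • T t) volume 0 L :=
      (hw.smul hT.continuous).intervalIntegrable _ _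
    have h3 : (∫ t in (0:ℝ)..L, ⟪T 0 + T t1, w t • T t⟫) = ⟪T 0 + T t1, ∫ t in (0:ℝ)..L, w t • T t⟫ := by
      exact ((innerSL ℝ (T 0 + T t1)).intervalIntegral_comp_comm h1)
    rw [hint, inner_zero_right] at h3
    refine Eq.trans ?_ h3
    refine intervalIntegral.integral_congr fun t _ => ?_
    simp only [inner_smul_right]
  have hzp : 0 < ∫ t in (0:ℝ)..L, w t * ⟪T 0 + T t1, T t⟫ := by
    refine intervalIntegral.intervalIntegral_pos_of_pos_on ?_ ?_ hL
    · exact (hw.mul (continuous_const.inner hT.continuous)).intervalIntegrable _ _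
    · intro t ht
      exact mul_pos (hwpos t) (hpos t (Ioo_subset_Icc_self ht))
  linarith

end Pool.Agent.N536.ND
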