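import Pool.Agent.N536.ND.Mu
import Pool.Agent.N536.ND.Fenchel

namespace Pool.Agent.N536.ND

open Real MeasureTheory InnerProductSpace
open scoped ContDiff RealInnerProductSpace

variable {n : ℕ} {γ : ℝ → EuclideanSpace ℝ (Fin n)}

theorem contDiff_iter (hγ : IsSmoothClosed γ) (j : ℕ) : ContDiff ℝ ∞ (iteratedDeriv j γ) := by
  have := hγ.1
  induction j with
  | zero => simpa using this
  | succ j ih =>
    rw [iteratedDeriv_succ]
    exact (contDiff_infty_iff_deriv.1 ih).2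

theorem gs_ne_zero (hnd : Nondegenerate γ) (t : ℝ) (i : Fin n) :
    gramSchmidt ℝ (fun j : Fin n => iteratedDeriv (j.val + 1) γ t) i ≠ 0 :=
  gramSchmidt_ne_zero i (hnd t)

/-- The Gram-Schmidt vectors depend smoothly on the parameter. -/
theorem contDiff_gs (hγ : IsSmoothClosed γ) (hnd : Nondegenerate γ) (i : Fin n) :
    ContDiff ℝ ∞ (fun t => gramSchmidt ℝ (fun j : Fin n => iteratedDeriv (j.val + 1) γ t) i) := by
  induction i using WellFoundedLT.induction with
  | _ i ih =>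
    have h : (fun t => gramSchmidt ℝ (fun j : Fin n => iteratedDeriv (j.val + 1) γ t) i)
        = fun t => iteratedDeriv (i.val + 1) γ t - ∑ k ∈ Finset.Iio i,
          (⟪gramSchmidt ℝ (fun j : Fin n => iteratedDeriv (j.val + 1) γ t) k,
            iteratedDeriv (i.val + 1) γ t⟫ /
            ‖gramSchmidt ℝ (fun j : Fin n => iteratedDeriv (j.val + 1) γ t) k‖ ^ 2) •
          gramSchmidt ℝ (fun j : Fin n => iteratedDeriv (j.val + 1) γ t) k := by
      funext t
      rw [gramSchmidt_def]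
      congr 1
      refine Finset.sum_congr rfl fun k _ => ?_
      rw [Submodule.starProjection_singleton]
      rfl
    rw [h]
    refine (contDiff_iter hγ _).sub (ContDiff.sum fun k hk => ?_)
    have hk' := ih k (Finset.mem_Iio.1 hk)
    refine ContDiff.smul (ContDiff.div (hk'.inner ℝ (contDiff_iter hγ _)) (hk'.norm_sq ℝ) ?_) hk'
    intro t
    exact pow_ne_zero 2 (norm_ne_zero_iff.2 (gs_ne_zero hnd t k))

theorem contDiff_frame (hγ : IsSmoothClosed γ) (hnd : Nondegenerate γ) (i : Fin n) :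
    ContDiff ℝ ∞ (fun t => frame γ t i) := by
  unfold frame
  have h : (fun t => gramSchmidtNormed ℝ (fun j : Fin n => iteratedDeriv (j.val + 1) γ t) i)
      = fun t => (‖gramSchmidt ℝ (fun j : Fin n => iteratedDeriv (j.val + 1) γ t) i‖)⁻¹ •
        gramSchmidt ℝ (fun j : Fin n => iteratedDeriv (j.val + 1) γ t) i := by
    funext t; rfl
  rw [h]
  exact ((contDiff_gs hγ hnd i).norm ℝ (fun t => gs_ne_zero hnd t i)).inv
    (fun t => norm_ne_zero_iff.2 (gs_ne_zero hnd t i)) |>.smul (contDiff_gs hγ hnd i)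

theorem frame_orthonormal (hnd : Nondegenerate γ) (t : ℝ) : Orthonormal ℝ (frame γ t) :=
  gramSchmidtNormed_orthonormal (hnd t)

theorem frame_eq (t : ℝ) (i : Fin n) :
    frame γ t i = (‖gramSchmidt ℝ (fun j : Fin n => iteratedDeriv (j.val + 1) γ t) i‖)⁻¹ •
        gramSchmidt ℝ (fun j : Fin n => iteratedDeriv (j.val + 1) γ t) i := rfl

/-- `e_{j+1}` is orthogonal to the derivatives of lower order. -/
theorem frame_inner_lower (t : ℝ) {i j : Fin n} (hij : i < j) :
    ⟪frame γ t j, iteratedDeriv (i.val + 1) γ t⟫ = 0 := by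
  rw [frame_eq, inner_smul_left,
    gramSchmidt_inv_triangular ℝ (fun j : Fin n => iteratedDeriv (j.val + 1) γ t) hij, mul_zero]

/-- `⟨e_{i+1}, γ^{(i+1)}⟩ ≠ 0`. -/
theorem frame_inner_self_ne (hnd : Nondegenerate γ) (t : ℝ) (i : Fin n) :
    ⟪frame γ t i, iteratedDeriv (i.val + 1) γ t⟫ ≠ 0 := by
  set f : Fin n → EuclideanSpace ℝ (Fin n) := fun j => iteratedDeriv (j.val + 1) γ t with hf
  have h1 : ⟪gramSchmidt ℝ f i, f i⟫ = ‖gramSchmidt ℝ f i‖ ^ 2 := by
    have h := gramSchmidt_def'' ℝ f i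
    have h2 : ⟪gramSchmidt ℝ f i, f i⟫ = ⟪gramSchmidt ℝ f i, gramSchmidt ℝ f i + ∑ k ∈ Finset.Iio i,
      (⟪gramSchmidt ℝ f k, f i⟫ / (‖gramSchmidt ℝ f k‖ : ℝ) ^ 2) • gramSchmidt ℝ f k⟫ := by
      conv_lhs => rw [h]
      rfl
    rw [h2, inner_add_right, inner_sum, real_inner_self_eq_norm_sq]
    rw [Finset.sum_eq_zero, add_zero]
    intro k hk
    rw [inner_smul_right, gramSchmidt_orthogonal ℝ f (Finset.mem_Iio.1 hk).ne', mul_zero]
  have h0 : gramSchmidt ℝ f i ≠ 0 := gs_ne_zero hnd t i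
  rw [frame_eq, inner_smul_left]
  show (starRingEnd ℝ ‖gramSchmidt ℝ f i‖⁻¹) * ⟪gramSchmidt ℝ f i, f i⟫ ≠ 0
  rw [h1]
  have : ‖gramSchmidt ℝ f i‖ ≠ 0 := norm_ne_zero_iff.2 h0
  simp [this]

theorem hasDerivAt_iter (hγ : IsSmoothClosed γ) (j : ℕ) (t : ℝ) :
    HasDerivAt (iteratedDeriv j γ) (iteratedDeriv (j + 1) γ t) t := by
  rw [iteratedDeriv_succ]
  exact (((contDiff_iter hγ j).differentiable (by norm_num)) t).hasDerivAt

theorem hasDerivAt_frame (hγ : IsSmoothClosed γ) (hnd : Nondegenerate γ) (i : Fin n) (t : ℝ) :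
    HasDerivAt (fun s => frame γ s i) (deriv (fun s => frame γ s i) t) t :=
  (((contDiff_frame hγ hnd i).differentiable (by norm_num)) t).hasDerivAt

theorem frame_norm (hnd : Nondegenerate γ) (t : ℝ) (i : Fin n) : ‖frame γ t i‖ = 1 :=
  (frame_orthonormal hnd t).1 i

theorem speed_pos (hnd : Nondegenerate γ) (hn : 1 ≤ n) (t : ℝ) : 0 < ‖deriv γ t‖ := by
  have h := (hnd t).ne_zero ⟨0, hn⟩
  simp only [zero_add, iteratedDeriv_one] at h
  exact norm_pos_iff.2 h

/-- `⟨e_i, e_j⟩' = 0`. -/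
theorem frame_skew (hγ : IsSmoothClosed γ) (hnd : Nondegenerate γ) (i j : Fin n) (t : ℝ) :
    ⟪frame γ t i, deriv (fun s => frame γ s j) t⟫ + ⟪deriv (fun s => frame γ s i) t, frame γ t j⟫
      = 0 := by
  have h1 := (hasDerivAt_frame hγ hnd i t).inner ℝ (hasDerivAt_frame hγ hnd j t)
  have h2 : (fun s => ⟪frame γ s i, frame γ s j⟫) = fun _ => if i = j then (1 : ℝ) else 0 := by
    funext s
    exact (orthonormal_iff_ite.1 (frame_orthonormal hnd s)) i j
  rw [h2] at h1
  exact h1.unique (hasDerivAt_const t _)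

/-- The derivative of `⟨e_{j+1}, γ^{(i+1)}⟩ = 0`, `i < j`. -/
theorem frame_lower_deriv (hγ : IsSmoothClosed γ) (hnd : Nondegenerate γ) {i j : Fin n}
    (hij : i < j) (t : ℝ) :
    ⟪frame γ t j, iteratedDeriv (i.val + 1 + 1) γ t⟫
      + ⟪deriv (fun s => frame γ s j) t, iteratedDeriv (i.val + 1) γ t⟫ = 0 := by
  have h1 := (hasDerivAt_frame hγ hnd j t).inner ℝ (hasDerivAt_iter hγ (i.val + 1) t)
  have h2 : (fun s => ⟪frame γ s j, iteratedDeriv (i.val + 1) γ s⟫) = fun _ => (0 : ℝ) := by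
    funext s
    exact frame_inner_lower s hij
  rw [h2] at h1
  exact h1.unique (hasDerivAt_const t _)

theorem frame_zero (hn : 1 ≤ n) (t : ℝ) :
    frame γ t ⟨0, hn⟩ = (‖deriv γ t‖)⁻¹ • deriv γ t := by
  have hbot : ∀ f : Fin n → EuclideanSpace ℝ (Fin n), gramSchmidt ℝ f ⟨0, hn⟩ = f ⟨0, hn⟩ := by
    intro f
    rw [gramSchmidt_def]
    have : Finset.Iio (⟨0, hn⟩ : Fin n) = ∅ := by
      ext a; simp [Fin.lt_def]
    rw [this, Finset.sum_empty, sub_zero]
  rw [frame_eq, hbot]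
  simp [iteratedDeriv_one]

/-- `e_1'` is orthogonal to `e_j`, `j ≥ 3`. -/
theorem deriv_e1_inner (hγ : IsSmoothClosed γ) (hnd : Nondegenerate γ) (hn : 1 ≤ n) {j : Fin n}
    (hj : 2 ≤ j.val) (t : ℝ) :
    ⟪deriv (fun s => frame γ s ⟨0, hn⟩) t, frame γ t j⟫ = 0 := by
  -- `⟨e_1', e_j⟩ = - ⟨e_1, e_j'⟩` and `e_1` is a multiple of `γ'`
  have h1 := frame_skew hγ hnd ⟨0, hn⟩ j t
  have h2 := frame_lower_deriv hγ hnd (i := ⟨0, hn⟩) (j := j) (by rw [Fin.lt_def]; simp; omega) t
  have h3 := frame_inner_lower (γ := γ) t (i := ⟨1, by omega⟩) (j := j) (by rw [Fin.lt_def]; simp; omega)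
  simp only [zero_add, iteratedDeriv_one] at h2 h3
  have h3' : ⟪frame γ t j, iteratedDeriv (1 + 1) γ t⟫ = 0 := h3
  rw [h3', zero_add] at h2
  have h4 : ⟪frame γ t ⟨0, hn⟩, deriv (fun s => frame γ s j) t⟫ = 0 := by
    rw [frame_zero, inner_smul_left, real_inner_comm, h2, mul_zero]
  rw [h4, zero_add] at h1
  exact h1

/-- `‖e_1'‖ = |κ_1| ‖γ'‖`. -/
theorem norm_deriv_e1 (hγ : IsSmoothClosed γ) (hnd : Nondegenerate γ) (hn : 2 ≤ n) (t : ℝ) :
    ‖deriv (fun s => frame γ s ⟨0, by omega⟩) t‖ = |curvature γ ⟨0, by omega⟩ t| * ‖deriv γ t‖ := by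
  have hsp := speed_pos hnd (by omega) t
  have hcard : Fintype.card (Fin n) = Module.finrank ℝ (EuclideanSpace ℝ (Fin n)) := by simp
  set b : OrthonormalBasis (Fin n) ℝ (EuclideanSpace ℝ (Fin n)) :=
    OrthonormalBasis.mk (frame_orthonormal hnd t)
      (by rw [(frame_orthonormal hnd t).linearIndependent.span_eq_top_of_card_eq_finrank' hcard])
    with hb
  have hbi : ∀ i, b i = frame γ t i := fun i => by simp [hb]
  set v := deriv (fun s => frame γ s ⟨0, by omega⟩) t with hv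
  have h0 : ⟪v, frame γ t ⟨0, by omega⟩⟫ = 0 := by
    have h := frame_skew hγ hnd ⟨0, by omega⟩ ⟨0, by omega⟩ t
    rw [real_inner_comm, ← two_mul] at h
    have := mul_eq_zero.1 h
    simpa using this
  have hsum : ‖v‖ ^ 2 = ⟪v, frame γ t ⟨1, by omega⟩⟫ ^ 2 := by
    have h := b.sum_sq_norm_inner_right v
    rw [← h, Finset.sum_eq_single (⟨1, by omega⟩ : Fin n)]
    · rw [hbi, Real.norm_eq_abs, sq_abs, real_inner_comm]
    · intro j _ hj
      have : ⟪v, frame γ t j⟫ = 0 := by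
        rcases Nat.lt_or_ge j.val 2 with h2 | h2
        · have : j = ⟨0, by omega⟩ := by
            apply Fin.ext
            have hne : j.val ≠ 1 := fun h => hj (Fin.ext h)
            simp; omega
          rw [this]; exact h0
        · exact deriv_e1_inner hγ hnd (by omega) h2 t
      rw [hbi, real_inner_comm, this]; simp
    · simp
  have h2 : ‖v‖ = |⟪v, frame γ t ⟨1, by omega⟩⟫| := by
    rw [← abs_of_nonneg (norm_nonneg v)]
    exact (sq_eq_sq_iff_abs_eq_abs _ _).1 hsum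
  rw [h2]
  unfold curvature
  rw [abs_div, abs_of_pos hsp, div_mul_cancel₀ _ hsp.ne']

/-- `κ_2 ≠ 0`. -/
theorem curvature_two_ne (hγ : IsSmoothClosed γ) (hnd : Nondegenerate γ) (hn : 3 ≤ n) (t : ℝ) :
    curvature γ ⟨1, by omega⟩ t ≠ 0 := by
  have hsp := speed_pos hnd (by omega) t
  unfold curvature
  refine div_ne_zero ?_ hsp.ne'
  intro hzero
  have hzero' : ⟪deriv (fun s => frame γ s ⟨1, by omega⟩) t, frame γ t ⟨2, by omega⟩⟫ = 0 := hzero
  -- `⟨e_2, e_3'⟩ = 0`
  have h1 := frame_skew hγ hnd ⟨1, by omega⟩ ⟨2, by omega⟩ t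
  rw [hzero', add_zero] at h1
  -- `⟨γ', e_3'⟩ = 0`
  have h2 := frame_lower_deriv hγ hnd (i := ⟨0, by omega⟩) (j := ⟨2, by omega⟩)
    (by rw [Fin.lt_def]; simp) t
  have h3 := frame_inner_lower (γ := γ) t (i := ⟨1, by omega⟩) (j := ⟨2, by omega⟩)
    (by rw [Fin.lt_def]; simp)
  simp only [zero_add, iteratedDeriv_one] at h2 h3
  have h3' : ⟪frame γ t ⟨2, by omega⟩, iteratedDeriv (1 + 1) γ t⟫ = 0 := h3
  rw [h3', zero_add] at h2
  -- `⟨γ'', e_3'⟩ = - ⟨γ''', e_3⟩ ≠ 0`
  have h4 := frame_lower_deriv hγ hnd (i := ⟨1, by omega⟩) (j := ⟨2, by omega⟩)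
    (by rw [Fin.lt_def]; simp) t
  have h5 := frame_inner_self_ne hnd t ⟨2, by omega⟩
  simp only at h4 h5
  have h5' : ⟪frame γ t ⟨2, by omega⟩, iteratedDeriv (1 + 1 + 1) γ t⟫ ≠ 0 := h5
  -- but `γ''` is a combination of `γ'` and `e_2`
  have h6 : ⟪deriv (fun s => frame γ s ⟨2, by omega⟩) t, iteratedDeriv (1 + 1) γ t⟫ = 0 := by
    set f : Fin n → EuclideanSpace ℝ (Fin n) := fun j => iteratedDeriv (j.val + 1) γ t with hf
    have hd := gramSchmidt_def'' ℝ f ⟨1, by omega⟩
    have hIio : Finset.Iio (⟨1, by omega⟩ : Fin n) = {⟨0, by omega⟩} := by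
      ext a; simp only [Finset.mem_Iio, Finset.mem_singleton, Fin.lt_def, Fin.ext_iff]; omega
    have hbot : gramSchmidt ℝ f ⟨0, by omega⟩ = deriv γ t := by
      rw [gramSchmidt_def]
      have : Finset.Iio (⟨0, by omega⟩ : Fin n) = ∅ := by
        ext a; simp [Fin.lt_def]
      rw [this, Finset.sum_empty, sub_zero]
      simp [hf, iteratedDeriv_one]
    rw [hIio, Finset.sum_singleton, hbot] at hd
    have hf1 : iteratedDeriv (1 + 1) γ t = f ⟨1, by omega⟩ := rfl
    have hgs : gramSchmidt ℝ f ⟨1, by omega⟩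
        = ‖gramSchmidt ℝ f ⟨1, by omega⟩‖ • frame γ t ⟨1, by omega⟩ := by
      rw [frame_eq, smul_smul, mul_inv_cancel₀ (norm_ne_zero_iff.2 (gs_ne_zero hnd t _)), one_smul]
    rw [hf1, hd, inner_add_right, inner_smul_right, h2, mul_zero, add_zero, hgs, inner_smul_right,
      real_inner_comm, h1, mul_zero]
  rw [h6, add_zero] at h4
  exact h5' h4

theorem continuous_curvature (hγ : IsSmoothClosed γ) (hnd : Nondegenerate γ) (i : Fin (n - 1)) :
    Continuous (curvature γ i) := by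
  have hi := i.isLt
  unfold curvature
  have hsp : ∀ t, ‖deriv γ t‖ ≠ 0 := fun t => (speed_pos hnd (by omega) t).ne'
  have h1 : Continuous (fun t => deriv (fun s => frame γ s ⟨i.val, by omega⟩) t) :=
    (contDiff_frame hγ hnd _).continuous_deriv (by norm_num)
  have h2 : Continuous (fun t => frame γ t ⟨i.val + 1, by omega⟩) :=
    (contDiff_frame hγ hnd _).continuous
  have h3 : Continuous (fun t => ‖deriv γ t‖) := (hγ.1.continuous_deriv (by norm_num)).norm
  exact (h1.inner h2).div h3 hsp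

/-- **The frame length exceeds `2π`.** -/
theorem two_pi_lt_frameLength (hγ : IsSmoothClosed γ) (hnd : Nondegenerate γ) (hn : 3 ≤ n) :
    2 * π < frameLength γ := by
  set T : ℝ → EuclideanSpace ℝ (Fin n) := fun s => frame γ s ⟨0, by omega⟩ with hT
  have hTs : ContDiff ℝ ∞ T := contDiff_frame hγ hnd _
  have hT1 : ContDiff ℝ 1 T := hTs.of_le (by exact_mod_cast le_top)
  have hspc : Continuous (fun t => ‖deriv γ t‖) := (hγ.1.continuous_deriv (by norm_num)).norm
  have hder : ∀ t, deriv γ (t + 2 * π) = deriv γ t := by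
    intro t
    have h : (fun s => γ (s + 2 * π)) = γ := funext hγ.2
    have := deriv_comp_add_const γ (2 * π) t
    rw [h] at this
    exact this.symm
  have hfen : 2 * π ≤ ∫ t in (0:ℝ)..2 * π, ‖deriv T t‖ := by
    refine fenchel (w := fun t => ‖deriv γ t‖) (by positivity) hT1 (fun t => frame_norm hnd t _)
      ?_ hspc (fun t => speed_pos hnd (by omega) t) ?_
    · have h := hder 0
      rw [zero_add] at h
      simp only [hT, frame_zero, h]
    · have h : ∀ t, ‖deriv γ t‖ • T t = deriv γ t := by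
        intro t
        simp only [hT, frame_zero]
        rw [smul_smul, mul_inv_cancel₀ (speed_pos hnd (by omega) t).ne', one_smul]
      simp only [h]
      rw [intervalIntegral.integral_deriv_eq_sub]
      · have := hγ.2 0
        rw [zero_add] at this
        rw [this, sub_self]
      · intro t _
        exact (hγ.1.differentiable (by norm_num)) t
      · exact (hγ.1.continuous_deriv (by norm_num)).intervalIntegrable _ _
  have hlt : (∫ t in (0:ℝ)..2 * π, ‖deriv T t‖) < frameLength γ := by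
    unfold frameLength
    have hpt : ∀ t, ‖deriv T t‖ < √(∑ i : Fin (n - 1), curvature γ i t ^ 2) * ‖deriv γ t‖ := by
      intro t
      rw [hT, norm_deriv_e1 hγ hnd (by omega) t]
      refine mul_lt_mul_of_pos_right ?_ (speed_pos hnd (by omega) t)
      rw [← Real.sqrt_sq_eq_abs]
      refine Real.sqrt_lt_sqrt (sq_nonneg _) ?_
      have hsub : ∑ i ∈ ({⟨0, by omega⟩, ⟨1, by omega⟩} : Finset (Fin (n - 1))), curvature γ i t ^ 2
          ≤ ∑ i : Fin (n - 1), curvature γ i t ^ 2 :=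
        Finset.sum_le_sum_of_subset_of_nonneg (Finset.subset_univ _) fun _ _ _ => sq_nonneg _
      rw [Finset.sum_pair (by simp [Fin.ext_iff])] at hsub
      have h2 : 0 < curvature γ ⟨1, by omega⟩ t ^ 2 :=
        lt_of_le_of_ne (sq_nonneg _) (Ne.symm (pow_ne_zero 2 (curvature_two_ne hγ hnd hn t)))
      linarith
    have hc1 : Continuous (fun t => ‖deriv T t‖) := (hT1.continuous_deriv le_rfl).norm
    have hc2 : Continuous (fun t => √(∑ i : Fin (n - 1), curvature γ i t ^ 2) * ‖deriv γ t‖) :=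
      (Real.continuous_sqrt.comp (continuous_finsetSum _ fun i _ =>
        (continuous_curvature hγ hnd i).pow 2)).mul hspc
    refine intervalIntegral.integral_lt_integral_of_continuousOn_of_le_of_exists_lt (by positivity)
      hc1.continuousOn hc2.continuousOn (fun t _ => (hpt t).le)
      ⟨0, ⟨le_rfl, by positivity⟩, hpt 0⟩
  linarith

end Pool.Agent.N536.ND
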