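import Pool.Agent.N536.ND.Base3

namespace Pool.Agent.N536.ND

open Real MeasureTheory
open scoped ContDiff RealInnerProductSpace

/-- The perturbed curve is smooth and closed. -/
theorem isSmoothClosed_perturbed {n : ℕ} {x : ℝ → EuclideanSpace ℝ (Fin n)}
    (hx : IsSmoothClosed x) (ε : ℝ) :
    IsSmoothClosed (fun t => (cos t • E0 n + sin t • E1 n) + ε • emb n (x t)) := by
  constructor
  · exact (contDiff_circle n).add (((emb n).contDiff.comp hx.1).const_smul ε)
  · intro t
    show (cos (t + 2 * π) • E0 n + sin (t + 2 * π) • E1 n) + ε • emb n (x (t + 2 * π)) = _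
    rw [cos_add_two_pi, sin_add_two_pi, hx.2 t]

/-- In every dimension other than `1` there is a nondegenerate closed curve. -/
theorem exists_nondegenerate (n : ℕ) (hn : n ≠ 1) :
    ∃ H : ℝ → EuclideanSpace ℝ (Fin n), IsSmoothClosed H ∧ Nondegenerate H := by
  induction n using Nat.strong_induction_on with
  | _ n ih =>
    match n, hn, ih with
    | 0, _, _ =>
      refine ⟨fun _ => 0, ⟨contDiff_const, fun _ => rfl⟩, fun t => ?_⟩
      exact linearIndependent_empty_type
    | 1, h, _ => exact absurd rfl h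
    | 3, _, _ => exact ⟨delt, delt_closed, delt_nondegenerate⟩
    | 2, _, ih =>
      obtain ⟨H, h1, h2⟩ := ih 0 (by norm_num) (by norm_num)
      obtain ⟨x, hx, hx2⟩ := step h1 h2
      exact ⟨_, isSmoothClosed_perturbed hx 1, hx2 1 one_ne_zero⟩
    | k + 4, _, ih =>
      obtain ⟨H, h1, h2⟩ := ih (k + 2) (by omega) (by omega)
      obtain ⟨x, hx, hx2⟩ := step h1 h2
      exact ⟨_, isSmoothClosed_perturbed hx 1, hx2 1 one_ne_zero⟩

theorem bounded_iteratedDeriv {n : ℕ} {x : ℝ → EuclideanSpace ℝ (Fin n)}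
    (hx : IsSmoothClosed x) (j : ℕ) : ∃ M, ∀ t, ‖iteratedDeriv j x t‖ ≤ M := by
  have hc : Continuous (iteratedDeriv j x) := hx.1.continuous_iteratedDeriv j (by exact_mod_cast le_top)
  have hp : Function.Periodic (iteratedDeriv j x) (2 * π) := by
    intro t
    have h : (fun s => x (s + 2 * π)) = x := funext hx.2
    have := iteratedDeriv_comp_add_const j x (2 * π)
    rw [h] at this
    exact (congrFun this t).symm
  obtain ⟨M, hM⟩ := (hp.isBounded_of_continuous (by positivity) hc).exists_norm_le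
  exact ⟨M, fun t => hM _ ⟨t, rfl⟩⟩

/-- The circle traversed once can be perturbed to a nondegenerate curve in `ℝⁿ⁺²` as soon as
there is a nondegenerate closed curve in `ℝⁿ`. -/
theorem perturbable_one {n : ℕ} {H : ℝ → EuclideanSpace ℝ (Fin n)} (hH : IsSmoothClosed H)
    (hnd : Nondegenerate H) : Perturbable (n + 2) 1 := by
  obtain ⟨x, hx, hx2⟩ := step hH hnd
  intro k ε hε
  choose M hM using bounded_iteratedDeriv hx
  -- a common bound for the derivatives of `emb x` up to order `k`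
  set C : ℝ := 1 + ∑ j ∈ Finset.range (k + 1), ‖emb n‖ * |M j| with hC
  have hC1 : 1 ≤ C := by
    rw [hC]
    have : 0 ≤ ∑ j ∈ Finset.range (k + 1), ‖emb n‖ * |M j| :=
      Finset.sum_nonneg fun j _ => by positivity
    linarith
  have hδ : 0 < ε / (2 * C) := by positivity
  refine ⟨_, isSmoothClosed_perturbed hx (ε / (2 * C)), hx2 _ hδ.ne', fun j hj t => ?_⟩
  have hcirc : circ (n + 2) 1 = fun t => cos t • E0 n + sin t • E1 n := by
    rw [circ_eq]; simp
  have hemb : ContDiff ℝ ∞ (fun t => ((ε / (2 * C)) • emb n) (x t)) :=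
    ((ε / (2 * C)) • emb n).contDiff.comp hx.1
  have h1 := iteratedDeriv_fun_add (n := j) (x := t)
    (((contDiff_circle n).of_le (by exact_mod_cast le_top)).contDiffAt)
    ((hemb.of_le (by exact_mod_cast le_top)).contDiffAt)
  have h2 := congrFun (iteratedDeriv_clm ((ε / (2 * C)) • emb n) hx.1 j) t
  rw [h2] at h1
  have h3 : iteratedDeriv j (fun t => (cos t • E0 n + sin t • E1 n) + (ε / (2 * C)) • emb n (x t)) t
      = iteratedDeriv j (fun t => cos t • E0 n + sin t • E1 n) t
        + ((ε / (2 * C)) • emb n) (iteratedDeriv j x t) := h1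
  rw [h3, hcirc, add_sub_cancel_left]
  have h4 : ‖((ε / (2 * C)) • emb n) (iteratedDeriv j x t)‖ ≤ (ε / (2 * C)) * C := by
    show ‖(ε / (2 * C)) • emb n (iteratedDeriv j x t)‖ ≤ _
    rw [norm_smul, Real.norm_of_nonneg hδ.le]
    refine mul_le_mul_of_nonneg_left ?_ hδ.le
    calc ‖emb n (iteratedDeriv j x t)‖ ≤ ‖emb n‖ * ‖iteratedDeriv j x t‖ :=
          (emb n).le_opNorm _
      _ ≤ ‖emb n‖ * |M j| := mul_le_mul_of_nonneg_left ((hM j t).trans (le_abs_self _)) (norm_nonneg _)
      _ ≤ ∑ j ∈ Finset.range (k + 1), ‖emb n‖ * |M j| :=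
          Finset.single_le_sum (f := fun j => ‖emb n‖ * |M j|) (fun j _ => by positivity)
            (Finset.mem_range.2 (by omega))
      _ ≤ C := by rw [hC]; linarith
  refine lt_of_le_of_lt h4 ?_
  have : ε / (2 * C) * C = ε / 2 := by field_simp
  rw [this]; linarith

theorem isLeast_one (n : ℕ) (hn : 4 ≤ n) : IsLeast {m : ℕ | 1 ≤ m ∧ Perturbable n m} 1 := by
  refine ⟨⟨le_rfl, ?_⟩, fun m hm => hm.1⟩
  obtain ⟨k, rfl⟩ : ∃ k, n = k + 2 := ⟨n - 2, by omega⟩
  obtain ⟨H, h1, h2⟩ := exists_nondegenerate k (by omega)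
  exact perturbable_one h1 h2

theorem mu_eq_one (n : ℕ) (hn : 4 ≤ n) : mu n = 1 :=
  (isLeast_one n hn).csInf_eq

end Pool.Agent.N536.ND
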