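import Pool.Agent.N536.ND.Defs

namespace Pool.Agent.N536.ND

open Real MeasureTheory
open scoped ContDiff RealInnerProductSpace

section ode

variable {E : Type*} [NormedAddCommGroup E] [NormedSpace ℝ E] [CompleteSpace E]

theorem contDiff_primitive {f : ℝ → E} (hf : ContDiff ℝ ∞ f) :
    ContDiff ℝ ∞ (fun t => ∫ s in (0:ℝ)..t, f s) := by
  have hd : ∀ t, HasDerivAt (fun t => ∫ s in (0:ℝ)..t, f s) (f t) t := fun t =>
    intervalIntegral.integral_hasDerivAt_right (hf.continuous.intervalIntegrable _ _)
      (hf.continuous.stronglyMeasurableAtFilter _ _) hf.continuous.continuousAt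
  rw [contDiff_infty_iff_deriv]
  refine ⟨fun t => (hd t).differentiableAt, ?_⟩
  have : deriv (fun t => ∫ s in (0:ℝ)..t, f s) = f := funext fun t => (hd t).deriv
  rw [this]; exact hf

omit [CompleteSpace E] in
theorem periodic_primitive {f : ℝ → E} (hf : Continuous f) (hanti : ∀ t, f (t + π) = - f t) :
    Function.Periodic (fun t => ∫ s in (0:ℝ)..t, f s) (2 * π) := by
  intro t
  have hi : ∀ a b, IntervalIntegrable f volume a b := fun a b => hf.intervalIntegrable a b
  have h1 : (∫ s in (0:ℝ)..t, f s) + ∫ s in t..(t + 2 * π), f s = ∫ s in (0:ℝ)..(t + 2 * π), f s :=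
    intervalIntegral.integral_add_adjacent_intervals (hi _ _) (hi _ _)
  have h2 : (∫ s in t..(t + π), f s) + ∫ s in (t + π)..(t + 2 * π), f s = ∫ s in t..(t + 2 * π), f s :=
    intervalIntegral.integral_add_adjacent_intervals (hi _ _) (hi _ _)
  have h3 : ∫ s in (t + π)..(t + 2 * π), f s = ∫ s in t..(t + π), f (s + π) := by
    rw [intervalIntegral.integral_comp_add_right]
    congr 1; ring
  have h4 : ∫ s in t..(t + π), f (s + π) = - ∫ s in t..(t + π), f s := by
    rw [← intervalIntegral.integral_neg]
    exact intervalIntegral.integral_congr fun s _ => hanti s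
  rw [h3, h4, add_neg_cancel] at h2
  rw [← h2, add_zero] at h1
  exact h1.symm

/-- Solve `x'' + x = y` with `x` periodic when `y` is `π`-periodic. -/
theorem exists_solution {y : ℝ → E} (hy : ContDiff ℝ ∞ y) (hper : ∀ t, y (t + π) = y t) :
    ∃ x : ℝ → E, ContDiff ℝ ∞ x ∧ Function.Periodic x (2 * π) ∧
      deriv (deriv x) = fun t => y t - x t := by
  have hA : ContDiff ℝ ∞ (fun t => ∫ s in (0:ℝ)..t, cos s • y s) :=
    contDiff_primitive (Real.contDiff_cos.smul hy)
  have hB : ContDiff ℝ ∞ (fun t => ∫ s in (0:ℝ)..t, sin s • y s) :=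
    contDiff_primitive (Real.contDiff_sin.smul hy)
  have hAd : ∀ t, HasDerivAt (fun t => ∫ s in (0:ℝ)..t, cos s • y s) (cos t • y t) t := fun t =>
    intervalIntegral.integral_hasDerivAt_right
      ((Real.continuous_cos.smul hy.continuous).intervalIntegrable _ _)
      ((Real.continuous_cos.smul hy.continuous).stronglyMeasurableAtFilter _ _)
      (Real.continuous_cos.smul hy.continuous).continuousAt
  have hBd : ∀ t, HasDerivAt (fun t => ∫ s in (0:ℝ)..t, sin s • y s) (sin t • y t) t := fun t =>
    intervalIntegral.integral_hasDerivAt_right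
      ((Real.continuous_sin.smul hy.continuous).intervalIntegrable _ _)
      ((Real.continuous_sin.smul hy.continuous).stronglyMeasurableAtFilter _ _)
      (Real.continuous_sin.smul hy.continuous).continuousAt
  have hAp := periodic_primitive (f := fun s => cos s • y s)
    (Real.continuous_cos.smul hy.continuous) (fun t => by rw [cos_add_pi, hper, neg_smul])
  have hBp := periodic_primitive (f := fun s => sin s • y s)
    (Real.continuous_sin.smul hy.continuous) (fun t => by rw [sin_add_pi, hper, neg_smul])
  set A : ℝ → E := fun t => ∫ s in (0:ℝ)..t, cos s • y s with hAdef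
  set B : ℝ → E := fun t => ∫ s in (0:ℝ)..t, sin s • y s with hBdef
  refine ⟨fun t => sin t • A t - cos t • B t, ?_, ?_, ?_⟩
  · exact (Real.contDiff_sin.smul hA).sub (Real.contDiff_cos.smul hB)
  · intro t
    have h1 := hAp t
    have h2 := hBp t
    simp only at h1 h2 ⊢
    rw [h1, h2, sin_add_two_pi, cos_add_two_pi]
  · have d1 : deriv (fun t => sin t • A t - cos t • B t) = fun t => cos t • A t + sin t • B t := by
      funext t
      have h := ((hasDerivAt_sin t).smul (hAd t)).sub ((hasDerivAt_cos t).smul (hBd t))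
      have h' := h.deriv
      have e : (fun t => sin t • A t - cos t • B t) = ((fun t => sin t • A t) - fun t => cos t • B t) := rfl
      rw [e]
      refine h'.trans ?_
      rw [smul_smul, smul_smul, mul_comm (sin t) (cos t), neg_smul]
      abel
    rw [d1]
    funext t
    have h := ((hasDerivAt_cos t).smul (hAd t)).add ((hasDerivAt_sin t).smul (hBd t))
    have h' := h.deriv
    have e : (fun t => cos t • A t + sin t • B t) = ((fun t => cos t • A t) + fun t => sin t • B t) := rfl
    rw [e]
    refine h'.trans ?_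
    rw [smul_smul, smul_smul, neg_smul]
    have : (cos t * cos t) • y t + (sin t * sin t) • y t = y t := by
      rw [← add_smul, show cos t * cos t + sin t * sin t = 1 by nlinarith [sin_sq_add_cos_sq t], one_smul]
    rw [show (cos t * cos t) • y t + -(sin t • A t) + ((sin t * sin t) • y t + cos t • B t)
      = ((cos t * cos t) • y t + (sin t * sin t) • y t) - (sin t • A t - cos t • B t) by abel, this]

end ode

/-- The embedding `x ↦ (0, 0, x)`. -/
noncomputable def emb (n : ℕ) : EuclideanSpace ℝ (Fin n) →L[ℝ] EuclideanSpace ℝ (Fin (n + 2)) :=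
  LinearMap.toContinuousLinearMap
    { toFun := fun x => WithLp.toLp 2 (Fin.cons 0 (Fin.cons 0 (fun i => x i)))
      map_add' := fun x y => by
        ext i; refine Fin.cases ?_ (fun i => ?_) i
        · simp
        · refine Fin.cases ?_ (fun i => ?_) i <;> simp
      map_smul' := fun c x => by
        ext i; refine Fin.cases ?_ (fun i => ?_) i
        · simp
        · refine Fin.cases ?_ (fun i => ?_) i <;> simp }

theorem emb_zero (n : ℕ) (x : EuclideanSpace ℝ (Fin n)) : emb n x 0 = 0 := rfl
theorem emb_one (n : ℕ) (x : EuclideanSpace ℝ (Fin n)) : emb n x (Fin.succ 0) = 0 := rfl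
theorem emb_succ (n : ℕ) (x : EuclideanSpace ℝ (Fin n)) (i : Fin n) :
    emb n x i.succ.succ = x i := rfl

/-- The first two coordinate vectors. -/
noncomputable def E0 (n : ℕ) : EuclideanSpace ℝ (Fin (n + 2)) := WithLp.toLp 2 (Fin.cons 1 (Fin.cons 0 fun _ => 0))
noncomputable def E1 (n : ℕ) : EuclideanSpace ℝ (Fin (n + 2)) := WithLp.toLp 2 (Fin.cons 0 (Fin.cons 1 fun _ => 0))

theorem decomp (n : ℕ) (z : EuclideanSpace ℝ (Fin (n + 2))) :
    z = z 0 • E0 n + z (Fin.succ 0) • E1 n + emb n (WithLp.toLp 2 fun i => z i.succ.succ) := by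
  ext i
  refine Fin.cases ?_ (fun i => ?_) i
  · simp [E0, E1, emb_zero]
  · refine Fin.cases ?_ (fun i => ?_) i
    · simp [E0, E1, emb]
    · simp [E0, E1, emb_succ]

theorem circ_eq (n m : ℕ) : circ (n + 2) m = fun t => cos (m * t) • E0 n + sin (m * t) • E1 n := by
  funext t
  ext i
  refine Fin.cases ?_ (fun i => ?_) i
  · simp [circ, E0, E1]
  · refine Fin.cases ?_ (fun i => ?_) i
    · simp [circ, E0, E1]
    · simp [circ, E0, E1]

theorem iteratedDeriv_clm {E F : Type*} [NormedAddCommGroup E] [NormedSpace ℝ E]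
    [NormedAddCommGroup F] [NormedSpace ℝ F] (L : E →L[ℝ] F) {x : ℝ → E} (hx : ContDiff ℝ ∞ x)
    (j : ℕ) : iteratedDeriv j (fun t => L (x t)) = fun t => L (iteratedDeriv j x t) := by
  induction j with
  | zero => simp
  | succ j ih =>
    rw [iteratedDeriv_succ, ih]
    funext t
    have hd : DifferentiableAt ℝ (iteratedDeriv j x) t :=
      (hx.differentiable_iteratedDeriv j (by exact_mod_cast ENat.natCast_lt_top j)) t
    rw [iteratedDeriv_succ]
    exact (L.hasFDerivAt.comp_hasDerivAt t hd.hasDerivAt).deriv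

/-- The unit circle in the first two coordinates. -/
theorem contDiff_circle (n : ℕ) : ContDiff ℝ ∞ (fun t : ℝ => cos t • E0 n + sin t • E1 n) :=
  (Real.contDiff_cos.smul contDiff_const).add (Real.contDiff_sin.smul contDiff_const)

theorem deriv_circle (n : ℕ) : deriv (fun t : ℝ => cos t • E0 n + sin t • E1 n)
    = fun t => (- sin t) • E0 n + cos t • E1 n := by
  funext t
  exact (((hasDerivAt_cos t).smul_const (E0 n)).fun_add ((hasDerivAt_sin t).smul_const (E1 n))).deriv

theorem deriv_deriv_circle (n : ℕ) : deriv (deriv (fun t : ℝ => cos t • E0 n + sin t • E1 n))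
    = fun t => - (cos t • E0 n + sin t • E1 n) := by
  rw [deriv_circle]
  funext t
  have := (((hasDerivAt_sin t).fun_neg.smul_const (E0 n)).fun_add
    ((hasDerivAt_cos t).smul_const (E1 n))).deriv
  rw [this, neg_smul, neg_smul]; abel

theorem iteratedDeriv_circle (n j : ℕ) (t : ℝ) :
    iteratedDeriv (j + 2) (fun t : ℝ => cos t • E0 n + sin t • E1 n) t
      = - iteratedDeriv j (fun t : ℝ => cos t • E0 n + sin t • E1 n) t := by
  rw [iteratedDeriv_succ', iteratedDeriv_succ', deriv_deriv_circle]
  exact iteratedDeriv_fun_neg _ _ _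

/-- **The perturbation step.**  If `H` is a smooth closed nondegenerate curve in `ℝⁿ`, there is a
smooth closed curve `x` in `ℝⁿ` such that `t ↦ (cos t, sin t, ε x(t))` is nondegenerate in
`ℝⁿ⁺²` for every `ε ≠ 0`: solve `x'' + x = H(2t)`. -/
theorem step {n : ℕ} {H : ℝ → EuclideanSpace ℝ (Fin n)} (hH : IsSmoothClosed H)
    (hnd : Nondegenerate H) :
    ∃ x : ℝ → EuclideanSpace ℝ (Fin n), IsSmoothClosed x ∧ ∀ ε : ℝ, ε ≠ 0 →
      Nondegenerate (fun t => (cos t • E0 n + sin t • E1 n) + ε • emb n (x t)) := by
  have hy : ContDiff ℝ ∞ (fun t => H (2 * t)) := hH.1.comp (contDiff_const.mul contDiff_id)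
  obtain ⟨x, hx, hxp, hxd⟩ := exists_solution hy (fun t => by
    have := hH.2 (2 * t)
    rw [show 2 * (t + π) = 2 * t + 2 * π by ring]; exact this)
  refine ⟨x, ⟨hx, hxp⟩, fun ε hε t => ?_⟩
  -- iterated derivatives of `x`
  have hxj : ∀ j t, iteratedDeriv (j + 2) x t + iteratedDeriv j x t
      = (2 : ℝ) ^ j • iteratedDeriv j H (2 * t) := by
    intro j t
    rw [iteratedDeriv_succ', iteratedDeriv_succ', hxd]
    have h1 : iteratedDeriv j (fun t => H (2 * t) - x t) t
        = iteratedDeriv j (fun t => H (2 * t)) t - iteratedDeriv j x t :=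
      iteratedDeriv_fun_sub ((hy.of_le (by exact_mod_cast le_top)).contDiffAt)
        ((hx.of_le (by exact_mod_cast le_top)).contDiffAt)
    rw [h1, sub_add_cancel]
    have h2 := congrFun (iteratedDeriv_comp_const_smul (n := j) (f := H)
      (hH.1.of_le (by exact_mod_cast le_top)) 2) t
    exact h2
  -- iterated derivatives of the curve
  have hG : ∀ j t, iteratedDeriv j (fun t => (cos t • E0 n + sin t • E1 n) + ε • emb n (x t)) t
      = iteratedDeriv j (fun t => cos t • E0 n + sin t • E1 n) t
        + ε • emb n (iteratedDeriv j x t) := by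
    intro j t
    have hemb : ContDiff ℝ ∞ (fun t => (ε • emb n) (x t)) := (ε • emb n).contDiff.comp hx
    have h1 := iteratedDeriv_fun_add (n := j) (x := t)
      (((contDiff_circle n).of_le (by exact_mod_cast le_top)).contDiffAt)
      ((hemb.of_le (by exact_mod_cast le_top)).contDiffAt)
    have h2 := congrFun (iteratedDeriv_clm (ε • emb n) hx j) t
    rw [h2] at h1
    exact h1
  set v : Fin (n + 2) → EuclideanSpace ℝ (Fin (n + 2)) := fun i =>
    iteratedDeriv (i.val + 1) (fun t => (cos t • E0 n + sin t • E1 n) + ε • emb n (x t)) t with hv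
  show LinearIndependent ℝ v
  refine linearIndependent_of_top_le_span_of_card_eq_finrank ?_ (by simp)
  -- the span contains the image of `emb`
  have hw : ∀ i : Fin n, v i.succ.succ + v i.castSucc.castSucc
      = (ε * 2 ^ (i.val + 1)) • emb n (iteratedDeriv (i.val + 1) H (2 * t)) := by
    intro i
    simp only [hv, hG]
    rw [show (i.succ.succ : Fin (n+2)).val + 1 = (i.val + 1) + 2 by simp,
      show (i.castSucc.castSucc : Fin (n+2)).val + 1 = i.val + 1 by simp, iteratedDeriv_circle]
    have h := hxj (i.val + 1) t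
    have h' : (2 : ℝ) ^ (i.val + 1) • emb n (iteratedDeriv (i.val + 1) H (2 * t))
        = emb n (iteratedDeriv (i.val + 1 + 2) x t) + emb n (iteratedDeriv (i.val + 1) x t) := by
      rw [← map_add, h, map_smul]
    rw [mul_smul, h', smul_add]
    abel
  have hspanw : ∀ u : EuclideanSpace ℝ (Fin n), emb n u ∈ Submodule.span ℝ (Set.range v) := by
    have hb : ⊤ ≤ Submodule.span ℝ
        (Set.range (fun i : Fin n => iteratedDeriv (i.val + 1) H (2 * t))) := by
      rw [(hnd (2 * t)).span_eq_top_of_card_eq_finrank' (by simp)]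
    intro u
    have hu : u ∈ Submodule.span ℝ
        (Set.range (fun i : Fin n => iteratedDeriv (i.val + 1) H (2 * t))) := hb trivial
    induction hu using Submodule.span_induction with
    | mem u hu =>
      obtain ⟨i, rfl⟩ := hu
      have h := hw i
      have hne : ε * 2 ^ (i.val + 1) ≠ 0 := mul_ne_zero hε (by positivity)
      have : emb n (iteratedDeriv (i.val + 1) H (2 * t))
          = (ε * 2 ^ (i.val + 1))⁻¹ • (v i.succ.succ + v i.castSucc.castSucc) := by
        rw [h, smul_smul, inv_mul_cancel₀ hne, one_smul]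
      simp only
      rw [this]
      exact Submodule.smul_mem _ _ (Submodule.add_mem _
        (Submodule.subset_span ⟨_, rfl⟩) (Submodule.subset_span ⟨_, rfl⟩))
    | zero => simp
    | add a b _ _ ha hb => rw [map_add]; exact Submodule.add_mem _ ha hb
    | smul c a _ ha => rw [map_smul]; exact Submodule.smul_mem _ _ ha
  have hv0 : (- sin t) • E0 n + cos t • E1 n ∈ Submodule.span ℝ (Set.range v) := by
    have h : v 0 = ((- sin t) • E0 n + cos t • E1 n) + ε • emb n (iteratedDeriv 1 x t) := by
      simp only [hv, hG]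
      rw [show ((0 : Fin (n+2)).val + 1) = 1 by simp, iteratedDeriv_one, deriv_circle]
    have : (- sin t) • E0 n + cos t • E1 n = v 0 - ε • emb n (iteratedDeriv 1 x t) := by
      rw [h]; abel
    rw [this]
    exact Submodule.sub_mem _ (Submodule.subset_span ⟨_, rfl⟩)
      (Submodule.smul_mem _ _ (hspanw _))
  have hv1 : cos t • E0 n + sin t • E1 n ∈ Submodule.span ℝ (Set.range v) := by
    have h : v 1 = - (cos t • E0 n + sin t • E1 n) + ε • emb n (iteratedDeriv 2 x t) := by
      simp only [hv, hG]
      rw [show ((1 : Fin (n+2)).val + 1) = 0 + 2 by simp, iteratedDeriv_circle, iteratedDeriv_zero]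
    have : cos t • E0 n + sin t • E1 n = - (v 1 - ε • emb n (iteratedDeriv 2 x t)) := by
      rw [h]; abel
    rw [this]
    exact Submodule.neg_mem _ (Submodule.sub_mem _ (Submodule.subset_span ⟨_, rfl⟩)
      (Submodule.smul_mem _ _ (hspanw _)))
  have hE0 : E0 n ∈ Submodule.span ℝ (Set.range v) := by
    have : E0 n = (- sin t) • ((- sin t) • E0 n + cos t • E1 n)
        + cos t • (cos t • E0 n + sin t • E1 n) := by
      have h := sin_sq_add_cos_sq t
      have e : (- sin t) • ((- sin t) • E0 n + cos t • E1 n)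
        + cos t • (cos t • E0 n + sin t • E1 n) = (sin t ^ 2 + cos t ^ 2) • E0 n := by
        module
      rw [e, h, one_smul]
    rw [this]
    exact Submodule.add_mem _ (Submodule.smul_mem _ _ hv0) (Submodule.smul_mem _ _ hv1)
  have hE1 : E1 n ∈ Submodule.span ℝ (Set.range v) := by
    have : E1 n = cos t • ((- sin t) • E0 n + cos t • E1 n)
        + sin t • (cos t • E0 n + sin t • E1 n) := by
      have h := sin_sq_add_cos_sq t
      have e : cos t • ((- sin t) • E0 n + cos t • E1 n)
        + sin t • (cos t • E0 n + sin t • E1 n) = (sin t ^ 2 + cos t ^ 2) • E1 n := by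
        module
      rw [e, h, one_smul]
    rw [this]
    exact Submodule.add_mem _ (Submodule.smul_mem _ _ hv0) (Submodule.smul_mem _ _ hv1)
  intro z _
  rw [decomp n z]
  exact Submodule.add_mem _ (Submodule.add_mem _ (Submodule.smul_mem _ _ hE0)
    (Submodule.smul_mem _ _ hE1)) (hspanw _)

end Pool.Agent.N536.ND
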